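import Pool.Agent.AT8.Stmts3

/-!
# Squad AT8, row NRM
-/

open scoped BigOperators

noncomputable section

namespace Pool.Agent.PP.T8.H45

open Pool.Agent.Helper51_AWC Pool.Agent.Helper79_WRA Pool.Agent.PP Pool.Agent.PP.KF

attribute [local instance] Ideal.Quotient.field

/-- the norm of an element of the cyclotomic ring -/
theorem prod_prim_aux (n : ℕ) [NeZero n] (K : Type) [Field K] [Algebra ℚ K]
    [IsCyclotomicExtension {n} ℚ K] (m : ℕ → ℤ) (N : ℕ) :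
    ∃ z : ℤ, ∏ μ ∈ primitiveRoots n ℂ, ∑ i ∈ Finset.range N, (m i : ℂ) * μ ^ i = z ∧
      (∀ μ ∈ primitiveRoots n ℂ, ∑ i ∈ Finset.range N, (m i : ℂ) * μ ^ i ≠ 0 → z ≠ 0) := by
  have hn : 0 < n := Nat.pos_of_ne_zero (NeZero.ne n)
  have hfd := IsCyclotomicExtension.finiteDimensional {n} ℚ K
  have hch : CharZero K := charZero_of_injective_algebraMap (algebraMap ℚ K).injective
  have hz := IsCyclotomicExtension.zeta_spec n ℚ K
  set z₀ : K := IsCyclotomicExtension.zeta n ℚ K with hz₀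
  set x : K := ∑ i ∈ Finset.range N, (m i : K) * z₀ ^ i with hx
  have hirr := Polynomial.cyclotomic.irreducible_rat hn
  let E := hz.embeddingsEquivPrimitiveRoots ℂ hirr
  have hE : ∀ σ : K →ₐ[ℚ] ℂ, ((E σ : primitiveRoots n ℂ) : ℂ) = σ z₀ := fun σ =>
    hz.embeddingsEquivPrimitiveRoots_apply_coe ℂ hirr σ
  have hσ : ∀ σ : K →ₐ[ℚ] ℂ, σ x = ∑ i ∈ Finset.range N, (m i : ℂ) * ((E σ : ℂ)) ^ i := by
    intro σ
    rw [hx, map_sum, hE]
    refine Finset.sum_congr rfl fun i _ => ?_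
    rw [map_mul, map_pow, map_intCast]
  have hint : IsIntegral ℤ x := by
    rw [hx]
    refine IsIntegral.sum _ fun i _ => IsIntegral.mul ?_ ((hz.isIntegral hn).pow i)
    have := isIntegral_algebraMap (R := ℤ) (A := K) (x := m i)
    simpa using this
  obtain ⟨k, hk⟩ := IsIntegrallyClosed.isIntegral_iff.1 (Algebra.isIntegral_norm ℚ hint)
  have hprod := Algebra.norm_eq_prod_embeddings ℚ ℂ x
  rw [← hk] at hprod
  have h1 : ∏ μ ∈ primitiveRoots n ℂ, ∑ i ∈ Finset.range N, (m i : ℂ) * μ ^ i =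
      ∏ σ : K →ₐ[ℚ] ℂ, σ x := by
    rw [← Finset.prod_coe_sort (primitiveRoots n ℂ)
      (fun μ => ∑ i ∈ Finset.range N, (m i : ℂ) * μ ^ i)]
    exact (Fintype.prod_equiv E _ _ fun σ => hσ σ).symm
  refine ⟨k, ?_, ?_⟩
  · rw [h1, ← hprod]
    simp
  · rintro μ hμ hne rfl
    apply hne
    have h2 : Algebra.norm ℚ x = 0 := by rw [← hk]; simp
    rw [Algebra.norm_eq_zero_iff] at h2
    have h3 := hσ (E.symm ⟨μ, hμ⟩)
    rw [Equiv.apply_symm_apply, h2, map_zero] at h3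
    exact h3.symm

theorem prod_prim (n : ℕ) [NeZero n] (m : ℕ → ℤ) (N : ℕ) :
    ∃ z : ℤ, ∏ μ ∈ primitiveRoots n ℂ, ∑ i ∈ Finset.range N, (m i : ℂ) * μ ^ i = z ∧
      (∀ μ ∈ primitiveRoots n ℂ, ∑ i ∈ Finset.range N, (m i : ℂ) * μ ^ i ≠ 0 → z ≠ 0) := by
  have : NeZero ((n : ℕ) : ℚ) := ⟨by exact_mod_cast NeZero.ne n⟩
  have h1 := CyclotomicField.isCyclotomicExtension n ℚ
  exact @prod_prim_aux n _ (CyclotomicField n ℚ) _ _ h1 m N

/-- divisibility in the local ring -/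
theorem dvd_RM {ℓ : ℕ} (hℓ : ℓ.Prime) (M : Ideal (integralClosure ℤ ℂ)) [M.IsMaximal]
    (hM : (ℓ : integralClosure ℤ ℂ) ∈ M) (t : ℕ) :
    ∀ n : ℤ, (n : ℂ) / (ℓ : ℂ) ^ t ∈ RM M → (ℓ : ℤ) ^ t ∣ n := by
  have hl0 : (ℓ : ℂ) ≠ 0 := by exact_mod_cast hℓ.ne_zero
  induction t with
  | zero => intro n _; simp
  | succ t ih =>
    intro n hn
    have h1 : (n : ℂ) / (ℓ : ℂ) ^ t ∈ RM M := by
      have h2 := (RM M).mul_mem (rr_nat (M := M) ℓ).1 hn
      have h3 : (ℓ : ℂ) * ((n : ℂ) / (ℓ : ℂ) ^ (t + 1)) = (n : ℂ) / (ℓ : ℂ) ^ t := by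
        rw [pow_succ]
        field_simp
      rwa [h3] at h2
    obtain ⟨k, rfl⟩ := ih n h1
    have h4 : (k : ℂ) / ℓ ∈ RM M := by
      have h5 : (((ℓ : ℤ) ^ t * k : ℤ) : ℂ) / (ℓ : ℂ) ^ (t + 1) = (k : ℂ) / ℓ := by
        push_cast
        rw [pow_succ]
        field_simp
      rwa [h5] at hn
    have h6 : rr M (k : ℂ) = 0 := by
      have h7 := rr_mul (rr_nat (M := M) ℓ).1 h4
      have h8 : (ℓ : ℂ) * ((k : ℂ) / ℓ) = k := by field_simp
      have h9 : rr M ((ℓ : ℤ) : ℂ) = 0 := (dvd_of_rr hℓ hM).2 (dvd_refl _)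
      rw [Int.cast_natCast] at h9
      rw [h8, h9, zero_mul] at h7
      exact h7
    obtain ⟨k', rfl⟩ := (dvd_of_rr hℓ hM).1 h6
    exact ⟨k', by ring⟩

/-- the inequality between the arithmetic and the geometric mean -/
theorem amgm {ι : Type*} (J : Finset ι) (y : ι → ℝ) (hy : ∀ j ∈ J, 0 < y j) (c : ℝ) (hc : 0 < c)
    (h : c ^ J.card ≤ ∏ j ∈ J, y j) : (J.card : ℝ) * c ≤ ∑ j ∈ J, y j := by
  have h1 : ∀ j ∈ J, Real.log (y j / c) ≤ y j / c - 1 := fun j hj =>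
    Real.log_le_sub_one_of_pos (div_pos (hy j hj) hc)
  have h2 : 0 ≤ ∑ j ∈ J, Real.log (y j / c) := by
    rw [← Real.log_prod fun j hj => (div_pos (hy j hj) hc).ne']
    apply Real.log_nonneg
    rw [Finset.prod_div_distrib, Finset.prod_const, one_le_div (pow_pos hc _)]
    exact h
  have h3 := h2.trans (Finset.sum_le_sum h1)
  rw [Finset.sum_sub_distrib, ← Finset.sum_div, Finset.sum_const, nsmul_eq_mul, mul_one,
    sub_nonneg, le_div_iff₀ hc] at h3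
  exact h3

theorem nrm : NrmStmt := by
  intro ℓ hℓ M _ hM a s h ha ζ hζ m hR hne
  have hp : ℓ.Prime := hℓ.out
  set J := (Finset.range (ℓ ^ a)).filter (fun j => ¬ ℓ ∣ j) with hJ
  have hq : 0 < ℓ ^ a := pow_pos hp.pos _
  have : NeZero (ℓ ^ a) := ⟨hq.ne'⟩
  have hcop : ∀ j : ℕ, j.Coprime (ℓ ^ a) ↔ ¬ ℓ ∣ j := by
    intro j
    rw [Nat.coprime_pow_right_iff ha, Nat.coprime_comm, Nat.Prime.coprime_iff_not_dvd hp]
  set P : ℕ → ℂ := fun j => ∑ i ∈ Finset.range (ℓ ^ a), (m i : ℂ) * ζ ^ (i * j) with hP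
  have hcard : J.card = ℓ ^ (a - 1) * (ℓ - 1) := by
    rw [← Nat.totient_prime_pow hp ha, Nat.totient, hJ]
    congr 1
    refine Finset.filter_congr fun j _ => ?_
    rw [Nat.coprime_comm, hcop]
  obtain ⟨z, hz, hz0⟩ := prod_prim (ℓ ^ a) m (ℓ ^ a)
  have hprod : ∏ j ∈ J, P j = z := by
    rw [← hz]
    refine Finset.prod_bij (fun j _ => ζ ^ j) ?_ ?_ ?_ ?_
    · intro j hj
      rw [hJ, Finset.mem_filter] at hj
      rw [mem_primitiveRoots hq]
      exact hζ.pow_of_coprime j ((hcop j).2 hj.2)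
    · intro i hi j hj hij
      rw [hJ, Finset.mem_filter, Finset.mem_range] at hi hj
      exact hζ.pow_inj hi.1 hj.1 hij
    · intro μ hμ
      rw [mem_primitiveRoots hq] at hμ
      obtain ⟨i, hi, hc, rfl⟩ := (hζ.isPrimitiveRoot_iff).1 hμ
      exact ⟨i, Finset.mem_filter.2 ⟨Finset.mem_range.2 hi, (hcop i).1 hc⟩, rfl⟩
    · intro j _
      refine Finset.sum_congr rfl fun i _ => ?_
      rw [← pow_mul, Nat.mul_comm j i]
  have hzne : z ≠ 0 := hz0 ζ ((mem_primitiveRoots hq).2 hζ) hne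
  have hl0 : (ℓ : ℂ) ≠ 0 := by exact_mod_cast hp.ne_zero
  have hdvd : (ℓ : ℤ) ^ ((s + h) * J.card) ∣ z := by
    apply dvd_RM hp M hM
    have h1 : ∏ j ∈ J, (P j / ℓ ^ s / ℓ ^ h) ∈ RM M := by
      refine Subring.prod_mem _ fun j hj => hR j ?_
      exact (Finset.mem_filter.1 hj).2
    have h2 : ∏ j ∈ J, (P j / ℓ ^ s / ℓ ^ h) = (z : ℂ) / (ℓ : ℂ) ^ ((s + h) * J.card) := by
      rw [Finset.prod_div_distrib, Finset.prod_div_distrib, hprod, Finset.prod_const,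
        Finset.prod_const, div_div]
      congr 1
      rw [← pow_mul, ← pow_mul, ← pow_add]
      ring
    rwa [h2] at h1
  have hPne : ∀ j ∈ J, P j ≠ 0 := by
    intro j hj h0
    apply hzne
    have h1 : ((z : ℤ) : ℂ) = 0 := by
      rw [← hprod]
      exact Finset.prod_eq_zero hj h0
    exact_mod_cast h1
  have habs : ((ℓ : ℝ) ^ ((s + h) * J.card)) ≤ |(z : ℝ)| := by
    obtain ⟨k, rfl⟩ := hdvd
    have hk : k ≠ 0 := by
      rintro rfl
      simp at hzne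
    have h1 : (1 : ℝ) ≤ |(k : ℝ)| := by exact_mod_cast Int.one_le_abs hk
    push_cast
    rw [abs_mul, abs_of_nonneg (by positivity)]
    exact le_mul_of_one_le_right (by positivity) h1
  have hmain : ((ℓ : ℝ) ^ (2 * h)) ^ J.card ≤ ∏ j ∈ J, Complex.normSq (P j / ℓ ^ s) := by
    rw [← map_prod, Finset.prod_div_distrib, hprod, Finset.prod_const, map_div₀, map_pow, map_pow,
      Complex.normSq_intCast, Complex.normSq_natCast]
    have hlp : (0 : ℝ) < (ℓ : ℝ) := by exact_mod_cast hp.pos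
    rw [le_div_iff₀ (by positivity)]
    have h1 : ((ℓ : ℝ) ^ (2 * h)) ^ J.card * (((ℓ : ℝ) * ℓ) ^ s) ^ J.card =
        (ℓ : ℝ) ^ ((s + h) * J.card) * (ℓ : ℝ) ^ ((s + h) * J.card) := by
      rw [← pow_two, ← pow_mul, ← pow_mul, ← pow_mul, ← pow_add, ← pow_add]
      congr 1
      ring
    rw [h1]
    calc _ ≤ |(z : ℝ)| * |(z : ℝ)| := mul_le_mul habs habs (by positivity) (abs_nonneg _)
      _ = (z : ℝ) * z := abs_mul_abs_self _
  have hfin := amgm J (fun j => Complex.normSq (P j / ℓ ^ s)) (fun j hj => by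
    apply Complex.normSq_pos.2
    exact div_ne_zero (hPne j hj) (pow_ne_zero _ hl0)) ((ℓ : ℝ) ^ (2 * h))
    (pow_pos (by exact_mod_cast hp.pos) _) hmain
  rw [hcard] at hfin
  push_cast at hfin ⊢
  exact hfin

end Pool.Agent.PP.T8.H45
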