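import Pool.Agent.AT8.Stmts3
import Pool.Agent.Helper32_AT2.PWU
import Pool.Agent.Helper49_AT3.BRG
import Pool.Agent.Helper45_AT8.NRM

/-!
# Squad AT8, row BN8
-/

open scoped BigOperators

noncomputable section

namespace Pool.Agent.PP.T8.H45

open Pool.Agent.Helper51_AWC Pool.Agent.Helper79_WRA Pool.Agent.PP Pool.Agent.PP.KF
open Pool.Agent.PP.K9 Pool.Agent.PP.K9.H97 Pool.Agent.PP.H75 Pool.Agent.PP.T3 Pool.Agent.PP.T2

attribute [local instance] Ideal.Quotient.field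

theorem bn8 (av1 : Av1Stmt) (av2 : Av2Stmt) (avo : AvoStmt) : Bn8Stmt := by
  intro ℓ hℓ M _ hM h2 G _ _ N hN e V γ b d c ε hD a k hk hka hexp y hy hh
  have hp : ℓ.Prime := hℓ.out
  have ha : 0 < a := by omega
  obtain ⟨hW, hWV, -⟩ := H32.pwu G (ℓ ^ k) V hD.ld.ab
  set W := Uw (ℓ ^ k) V with hWdef
  have hWs : ∃ s, Nat.card W = ℓ ^ s := by
    have h3 : IsPGroup ℓ W := hD.ld.tp.pg.to_le hWV
    exact IsPGroup.iff_card.1 h3
  obtain ⟨s, hs⟩ := hWs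
  have hq : 0 < ℓ ^ a := pow_pos hp.pos _
  obtain ⟨ζ, hζ⟩ : ∃ ζ : ℂ, IsPrimitiveRoot ζ (ℓ ^ a) :=
    ⟨_, Complex.isPrimitiveRoot_exp (ℓ ^ a) hq.ne'⟩
  have hζ' : IsPrimitiveRoot (ζ ^ ℓ ^ (a - 1)) (ℓ ^ 1) := by
    have h3 := hζ.pow hq (show ℓ ^ a = ℓ ^ (a - 1) * ℓ by rw [← pow_succ]; congr 1; omega)
    rwa [pow_one]
  set R : Set (G → ℂ) := {χ | χ ∈ IrrE M e ∧ ∀ g, χ (g ^ N) = χ g} with hR
  have hfin : R.Finite := (T3.H49.irrE_fin M e).subset fun χ h => h.1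
  set J := (Finset.range (ℓ ^ 1)).filter (fun j => ¬ ℓ ∣ j) with hJ
  have hJc : J.card = ℓ - 1 := by
    have h3 : J = (Finset.range ℓ).erase 0 := by
      rw [hJ, pow_one]
      ext j
      rw [Finset.mem_filter, Finset.mem_erase, Finset.mem_range, and_comm]
      refine and_congr_left fun hj => ?_
      constructor
      · rintro h rfl
        exact h (dvd_zero _)
      · intro h0 h
        exact absurd (Nat.le_of_dvd (Nat.pos_of_ne_zero h0) h) (by omega)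
    rw [h3, Finset.card_erase_of_mem (Finset.mem_range.2 hp.pos), Finset.card_range]
  set A : ℕ → (G → ℂ) → ℂ := fun j χ => av M b d ε W (y ^ j) χ with hA
  have hl0 : (ℓ : ℂ) ≠ 0 := by exact_mod_cast hp.ne_zero
  -- the lower bound
  have h1 : ∀ χ ∈ R, ((ℓ - 1 : ℕ) : ℝ) ≤ ∑ j ∈ J, Complex.normSq (A j χ) := by
    intro χ hχ
    obtain ⟨m, hm⟩ := av2 ℓ M hM h2 G N hN e V γ b d c ε hD a k hk hka hexp y hy χ hχ.1 hχ.2 ζ hζ
    have hAV := av1 ℓ M hM h2 G N hN e V γ b d c ε hD a k hk hka hexp y hy χ hχ.1 hχ.2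
    have e1 : ∀ j : ℕ, ¬ ℓ ∣ j →
        (∑ i ∈ Finset.range (ℓ ^ 1), (m i : ℂ) * (ζ ^ ℓ ^ (a - 1)) ^ (i * j)) / ℓ ^ s = A j χ := by
      intro j hj
      rw [pow_one ℓ, ← hm j hj, ← hWdef, hs, div_eq_iff (pow_ne_zero _ hl0)]
      push_cast
      rw [mul_comm]
    have h3 := nrm ℓ M hM 1 s 0 one_pos (ζ ^ ℓ ^ (a - 1)) hζ' m (fun j hj => by
      rw [e1 j hj, pow_zero, div_one]
      exact (hAV j hj).2.1) (by
      intro h0
      have h1' : ¬ ℓ ∣ 1 := fun hd => hp.one_lt.ne' (Nat.dvd_one.1 hd)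
      have h4 := e1 1 h1'
      simp only [mul_one] at h4
      rw [h0, zero_div] at h4
      exact (hAV 1 h1').2.2 (hh χ hχ.1) h4.symm)
    have h5 : ((ℓ ^ (1 - 1) * (ℓ - 1) * ℓ ^ (2 * 0) : ℕ) : ℝ) = ((ℓ - 1 : ℕ) : ℝ) := by
      congr 1
      simp
    rw [h5] at h3
    refine h3.trans (le_of_eq (Finset.sum_congr rfl fun j hj => ?_))
    rw [e1 j (Finset.mem_filter.1 hj).2]
  -- the upper bound
  have h3 : ∀ j ∈ J, (ℓ : ℝ) ^ (k - 1) * Nat.card W *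
      ∑ χ ∈ hfin.toFinset, Complex.normSq (A j χ) ≤ Nat.card V := by
    intro j hj
    have h4 := avo ℓ M hM h2 G N hN e V γ b d c ε hD a k hk hka hexp y hy j
      (Finset.mem_filter.1 hj).2
    rw [finsum_mem_eq_finite_toFinset_sum _ hfin] at h4
    exact h4
  have h4 : (R.ncard : ℝ) * ((ℓ - 1 : ℕ) : ℝ) ≤
      ∑ χ ∈ hfin.toFinset, ∑ j ∈ J, Complex.normSq (A j χ) := by
    have h5 : (R.ncard : ℝ) * ((ℓ - 1 : ℕ) : ℝ) =
        ∑ χ ∈ hfin.toFinset, ((ℓ - 1 : ℕ) : ℝ) := by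
      rw [Finset.sum_const, nsmul_eq_mul, Set.ncard_eq_toFinset_card R hfin]
    rw [h5]
    exact Finset.sum_le_sum fun χ hχ => h1 χ (hfin.mem_toFinset.1 hχ)
  rw [Finset.sum_comm] at h4
  have hX : (0 : ℝ) ≤ (ℓ : ℝ) ^ (k - 1) * Nat.card W := by positivity
  have h5 : (ℓ : ℝ) ^ (k - 1) * Nat.card W * ((R.ncard : ℝ) * ((ℓ - 1 : ℕ) : ℝ)) ≤
      ((ℓ - 1 : ℕ) : ℝ) * Nat.card V := by
    calc (ℓ : ℝ) ^ (k - 1) * Nat.card W * ((R.ncard : ℝ) * ((ℓ - 1 : ℕ) : ℝ))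
        ≤ (ℓ : ℝ) ^ (k - 1) * Nat.card W *
          ∑ j ∈ J, ∑ χ ∈ hfin.toFinset, Complex.normSq (A j χ) :=
          mul_le_mul_of_nonneg_left h4 hX
      _ = ∑ j ∈ J, (ℓ : ℝ) ^ (k - 1) * Nat.card W *
          ∑ χ ∈ hfin.toFinset, Complex.normSq (A j χ) := Finset.mul_sum _ _ _
      _ ≤ ∑ _j ∈ J, (Nat.card V : ℝ) := Finset.sum_le_sum h3
      _ = ((ℓ - 1 : ℕ) : ℝ) * Nat.card V := by rw [Finset.sum_const, hJc, nsmul_eq_mul]
  have h6 : ℓ ^ (k - 1) * Nat.card W * (R.ncard * (ℓ - 1)) ≤ (ℓ - 1) * Nat.card V := by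
    exact_mod_cast h5
  have h7 : 0 < ℓ - 1 := by have := hp.one_lt; omega
  refine Nat.le_of_mul_le_mul_left ?_ h7
  calc (ℓ - 1) * (R.ncard * ℓ ^ (k - 1) * Nat.card W) =
      ℓ ^ (k - 1) * Nat.card W * (R.ncard * (ℓ - 1)) := by ring
    _ ≤ _ := h6

end Pool.Agent.PP.T8.H45
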