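import Pool.Agent.AT8.Stmts4

/-!
# Squad AT8, row RGS
-/

open scoped BigOperators

noncomputable section

namespace Pool.Agent.PP.T8.H45

/-- the automorphisms which act trivially modulo the `n`-th powers -/
def trv (V : Type) [CommGroup V] (n : ℕ) : Subgroup (MulAut V) where
  carrier := {t | ∀ v : V, ∃ w, t v = v * w ^ n}
  one_mem' := fun v => ⟨1, by simp⟩
  mul_mem' := by
    intro t t' ht ht' v
    obtain ⟨w, hw⟩ := ht' v
    obtain ⟨u, hu⟩ := ht v
    refine ⟨u * t w, ?_⟩
    rw [MulAut.mul_apply, hw, map_mul, map_pow, hu, mul_pow, mul_assoc]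
  inv_mem' := by
    intro t ht v
    obtain ⟨w, hw⟩ := ht (t⁻¹ v)
    refine ⟨w⁻¹, ?_⟩
    rw [MulAut.apply_inv_self] at hw
    rw [inv_pow, eq_mul_inv_iff_mul_eq]
    exact hw.symm

/-- the elements fixed by `s` modulo the `n`-th powers -/
def fxd (V : Type) [CommGroup V] (n : ℕ) (s : MulAut V) : Subgroup V where
  carrier := {v | ∃ w, s v = v * w ^ n}
  one_mem' := ⟨1, by simp⟩
  mul_mem' := by
    rintro v v' ⟨w, hw⟩ ⟨w', hw'⟩
    refine ⟨w * w', ?_⟩
    rw [map_mul, hw, hw', mul_pow, mul_mul_mul_comm]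
  inv_mem' := by
    rintro v ⟨w, hw⟩
    refine ⟨w⁻¹, ?_⟩
    rw [map_inv, hw, inv_pow, mul_inv]

/-- the elements of order dividing `n` -/
def tor (V : Type) [CommGroup V] (n : ℕ) : Subgroup V where
  carrier := {v | v ^ n = 1}
  one_mem' := one_pow n
  mul_mem' := by
    intro v v' hv hv'
    show (v * v') ^ n = 1
    rw [mul_pow, (show v ^ n = 1 from hv), (show v' ^ n = 1 from hv'), one_mul]
  inv_mem' := by
    intro v hv
    show v⁻¹ ^ n = 1
    rw [inv_pow, (show v ^ n = 1 from hv), inv_one]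

theorem index_ge {ℓ : ℕ} (hℓ : ℓ.Prime) {V : Type} [CommGroup V] [Finite V]
    (hV : ∃ n, Nat.card V = ℓ ^ n) (D : Subgroup V) (hD : D ≠ ⊤) :
    ℓ * Nat.card D ≤ Nat.card V := by
  obtain ⟨n, hn⟩ := hV
  have h1 := D.card_mul_index
  have h2 : D.index ∣ ℓ ^ n := by
    rw [← hn]
    exact ⟨Nat.card D, by rw [← h1, mul_comm]⟩
  obtain ⟨k, -, hk⟩ := (Nat.dvd_prime_pow hℓ).1 h2
  have hk0 : k ≠ 0 := by
    rintro rfl
    rw [pow_zero, Subgroup.index_eq_one] at hk
    exact hD hk
  have h3 : ℓ ≤ D.index := by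
    rw [hk]
    exact Nat.le_self_pow hk0 ℓ
  rw [← h1, mul_comm]
  exact Nat.mul_le_mul_left _ h3

theorem rgs (cpr : CprStmt) : RgsStmt := by
  classical
  intro ℓ hℓ V _ _ a ha hexp E hE
  have hp : ℓ.Prime := hℓ.out
  have hpg : IsPGroup ℓ V := fun g => ⟨a, by rw [← hexp]; exact Monoid.pow_exponent_eq_one g⟩
  have hV : ∃ n, Nat.card V = ℓ ^ n := IsPGroup.iff_card.1 hpg
  by_contra hcon
  have hcon' : ∀ y : V, orderOf y = ℓ ^ a → ∃ s ∈ E, s ≠ 1 ∧ ∃ v : V, s y = y * v ^ ℓ := by
    intro y hy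
    by_contra hy'
    refine hcon ⟨y, hy, fun s hs v hsv => ?_⟩
    by_contra hs1
    exact hy' ⟨s, hs, hs1, v, hsv⟩
  haveI : Finite E := inferInstance
  letI : Fintype E := Fintype.ofFinite E
  letI : Fintype V := Fintype.ofFinite V
  let D : E → Subgroup V := fun s => if s = 1 then tor V (ℓ ^ (a - 1)) else fxd V ℓ s
  have hD : ∀ s, D s ≠ ⊤ := by
    intro s
    by_cases hs : s = 1
    · simp only [D, if_pos hs]
      intro h
      have h1 : Monoid.exponent V ∣ ℓ ^ (a - 1) := by
        apply Monoid.exponent_dvd_of_forall_pow_eq_one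
        intro g
        have : g ∈ tor V (ℓ ^ (a - 1)) := h ▸ Subgroup.mem_top g
        exact this
      rw [hexp, Nat.pow_dvd_pow_iff_le_right hp.one_lt] at h1
      omega
    · simp only [D, if_neg hs]
      intro h
      apply hs
      have h1 : Subgroup.zpowers (s : MulAut V) ≤ trv V ℓ := by
        rw [Subgroup.zpowers_le]
        intro v
        have : v ∈ fxd V ℓ s := h ▸ Subgroup.mem_top v
        exact this
      have h2 : Subgroup.zpowers (s : MulAut V) ≤ E := by
        rw [Subgroup.zpowers_le]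
        exact s.2
      have h3 : ¬ ℓ ∣ Nat.card (Subgroup.zpowers (s : MulAut V)) := by
        intro hd
        have h4 := Nat.le_of_dvd Nat.card_pos hd
        have h5 := Subgroup.card_le_of_le h2
        omega
      have h4 := (cpr ℓ V a hexp _ h3).2 fun t ht v => h1 ht v
      rw [Subgroup.zpowers_eq_bot] at h4
      exact Subtype.ext h4
  have hcov : ∀ y : V, ∃ s : E, y ∈ D s := by
    intro y
    by_cases hy : orderOf y = ℓ ^ a
    · obtain ⟨s, hs, hs1, v, hv⟩ := hcon' y hy
      refine ⟨⟨s, hs⟩, ?_⟩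
      have : (⟨s, hs⟩ : E) ≠ 1 := fun h => hs1 (congrArg Subtype.val h)
      simp only [D, if_neg this]
      exact ⟨v, hv⟩
    · refine ⟨1, ?_⟩
      simp only [D, if_true]
      have h1 : orderOf y ∣ ℓ ^ a := by
        rw [← hexp]
        exact Monoid.order_dvd_exponent y
      obtain ⟨k, hk, hk'⟩ := (Nat.dvd_prime_pow hp).1 h1
      have h2 : k ≤ a - 1 := by
        rcases Nat.lt_or_ge k a with h | h
        · omega
        · exact absurd (by rw [hk', le_antisymm hk h]) hy
      show y ^ ℓ ^ (a - 1) = 1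
      rw [← orderOf_dvd_iff_pow_eq_one, hk']
      exact pow_dvd_pow _ h2
  have h1 : Nat.card V ≤ ∑ s : E, Nat.card (D s) := by
    have h2 : (Finset.univ : Finset V) ⊆
        Finset.univ.biUnion fun s : E => Finset.univ.filter fun y => y ∈ D s := by
      intro y _
      obtain ⟨s, hs⟩ := hcov y
      rw [Finset.mem_biUnion]
      exact ⟨s, Finset.mem_univ _, Finset.mem_filter.2 ⟨Finset.mem_univ _, hs⟩⟩
    have h3 := (Finset.card_le_card h2).trans Finset.card_biUnion_le
    rw [Finset.card_univ] at h3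
    rw [Nat.card_eq_fintype_card]
    refine h3.trans (Finset.sum_le_sum fun s _ => le_of_eq ?_)
    rw [Nat.card_eq_fintype_card, Fintype.card_subtype]
  have h2 : ℓ * Nat.card V ≤ Nat.card E * Nat.card V := by
    calc ℓ * Nat.card V ≤ ℓ * ∑ s : E, Nat.card (D s) := Nat.mul_le_mul_left _ h1
      _ = ∑ s : E, ℓ * Nat.card (D s) := Finset.mul_sum _ _ _
      _ ≤ ∑ _s : E, Nat.card V := Finset.sum_le_sum fun s _ => index_ge hp hV _ (hD s)
      _ = Nat.card E * Nat.card V := by
        rw [Finset.sum_const, Finset.card_univ, smul_eq_mul, Nat.card_eq_fintype_card (α := E)]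
  have h3 := Nat.le_of_mul_le_mul_right h2 Nat.card_pos
  omega

end Pool.Agent.PP.T8.H45
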