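import Pool.Agent.AT8.Stmts3
import Pool.Agent.Helper32_AT2.PWU
import Pool.Agent.Helper60_AT2.ORJ

/-!
# Squad AT8, rows RKX, XCT
-/

open scoped BigOperators

noncomputable section

namespace Pool.Agent.PP.T8.H45

open Pool.Agent.Helper51_AWC Pool.Agent.Helper79_WRA Pool.Agent.PP Pool.Agent.PP.KF
open Pool.Agent.PP.K9 Pool.Agent.PP.K9.H97 Pool.Agent.PP.H75 Pool.Agent.PP.T3 Pool.Agent.PP.T2

attribute [local instance] Ideal.Quotient.field

/-- an inverse of `j` for the exponents -/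
theorem inv_exp {ℓ : ℕ} (hp : ℓ.Prime) {a j : ℕ} (hj : ¬ ℓ ∣ j) :
    ∃ c : ℕ, ∀ {G : Type} [Group G] (y : G), y ^ ℓ ^ a = 1 → y ^ (j * c) = y := by
  rcases Nat.eq_zero_or_pos a with h0 | h0
  · refine ⟨0, fun y hy => ?_⟩
    rw [h0, pow_zero, pow_one] at hy
    rw [hy, one_pow]
  · have h1 : 1 < ℓ ^ a := Nat.one_lt_pow h0.ne' hp.one_lt
    have hcop : Nat.Coprime j (ℓ ^ a) :=
      Nat.Coprime.pow_right _ ((Nat.Prime.coprime_iff_not_dvd hp).2 hj).symm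
    obtain ⟨i, hi⟩ := Nat.exists_mul_mod_eq_one_of_coprime hcop h1
    refine ⟨i, fun y hy => ?_⟩
    have h2 : y ^ (j * i) = y ^ 1 := by
      apply pow_eq_pow_iff_modEq.2
      have h3 : j * i ≡ 1 [MOD ℓ ^ a] := by
        unfold Nat.ModEq
        rw [hi.2, Nat.mod_eq_of_lt h1]
      exact h3.of_dvd (orderOf_dvd_of_pow_eq_one hy)
    rw [h2, pow_one]

/-- `n - 1` for `n = 1` modulo `ℓ`, `m` prime to `ℓ`: powers -/
theorem pow_sub {ℓ : ℕ} (hp : ℓ.Prime) {r m a : ℕ} (hr : r ≡ 1 [MOD ℓ]) (hm : ¬ ℓ ∣ m)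
    {G : Type} [Group G] (W : Subgroup G) (y : G) (hy : y ^ ℓ ^ a = 1)
    (h : y ^ ((r : ℤ) ^ m - 1) ∈ W) : y ^ ((r : ℤ) - 1) ∈ W := by
  set S : ℤ := ∑ i ∈ Finset.range m, (r : ℤ) ^ i with hS
  have h1 : ((r : ℤ) - 1) * S = (r : ℤ) ^ m - 1 := mul_geom_sum _ _
  have h2 : (r : ℤ) ≡ 1 [ZMOD ℓ] := by
    have := (Int.natCast_modEq_iff (a := r) (b := 1) (n := ℓ)).2 hr
    simpa using this
  have h3 : S ≡ (m : ℤ) [ZMOD ℓ] := by
    have h4 : ∀ n : ℕ, (∑ i ∈ Finset.range n, (r : ℤ) ^ i) ≡ (n : ℤ) [ZMOD ℓ] := by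
      intro n
      induction n with
      | zero => simp
      | succ n ih =>
        rw [Finset.sum_range_succ]
        push_cast
        have h5 := (h2.pow n)
        rw [one_pow] at h5
        exact ih.add h5
    exact h4 m
  have h4 : ¬ (ℓ : ℤ) ∣ S := by
    intro h5
    apply hm
    have h6 : (ℓ : ℤ) ∣ (m : ℤ) := h3.dvd_iff.1 h5
    exact_mod_cast h6
  have h5 : IsCoprime S ((ℓ : ℤ) ^ a) :=
    (((Nat.prime_iff_prime_int.1 hp).coprime_iff_not_dvd.2 h4).symm).pow_right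
  obtain ⟨x, z, hxz⟩ := h5
  have h6 : (r : ℤ) - 1 = ((r : ℤ) ^ m - 1) * x + (ℓ : ℤ) ^ a * (z * ((r : ℤ) - 1)) := by
    rw [← h1]
    linear_combination (-(((r : ℤ) - 1))) * hxz
  have h7 : y ^ ((ℓ : ℤ) ^ a * (z * ((r : ℤ) - 1))) = 1 := by
    rw [zpow_mul]
    have : y ^ ((ℓ : ℤ) ^ a) = 1 := by
      have h8 : ((ℓ : ℤ) ^ a) = ((ℓ ^ a : ℕ) : ℤ) := by push_cast; rfl
      rw [h8, zpow_natCast, hy]
    rw [this, one_zpow]
  rw [h6, zpow_add, h7, mul_one, zpow_mul]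
  exact W.zpow_mem h x

section

variable {G : Type} [Group G] {ℓ a k : ℕ} {V : Subgroup G}

theorem order_yw (hp : ℓ.Prime) (ha : 0 < a) (hk : 0 < k)
    (hab : ∀ a ∈ V, ∀ b ∈ V, a * b = b * a) (hexp : ∀ v ∈ V, v ^ ℓ ^ a = 1) {y v : G} (hy : y ∈ V)
    (hv : v ∈ V) (ho : orderOf y = ℓ ^ a) : orderOf (y * v ^ ℓ ^ k) = ℓ ^ a := by
  obtain ⟨b, rfl⟩ : ∃ b, a = b + 1 := ⟨a - 1, by omega⟩
  have : Fact ℓ.Prime := ⟨hp⟩
  have hc : Commute y (v ^ ℓ ^ k) := hab y hy _ (V.pow_mem hv _)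
  refine orderOf_eq_prime_pow ?_ ?_
  · rw [hc.mul_pow, ← pow_mul v, ← pow_add]
    have h1 : v ^ ℓ ^ (k + b) = 1 := by
      obtain ⟨c, rfl⟩ : ∃ c, k = c + 1 := ⟨k - 1, by omega⟩
      have : ℓ ^ (c + 1 + b) = ℓ ^ (b + 1) * ℓ ^ c := by rw [← pow_add]; congr 1; omega
      rw [this, pow_mul, hexp v hv, one_pow]
    rw [h1, mul_one]
    intro h2
    have h3 := orderOf_dvd_of_pow_eq_one h2
    rw [ho] at h3
    have h4 := (Nat.pow_dvd_pow_iff_le_right hp.one_lt).1 h3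
    omega
  · exact hexp _ (V.mul_mem hy (V.pow_mem hv _))

end

theorem rkx : RkxStmt := by
  intro ℓ _ F _ hF G _ _ e V γ hL hix a k hk hka hexp y hy
  have hp : ℓ.Prime := Fact.out
  have ha : 0 < a := by omega
  have hab := hL.ab
  obtain ⟨hW, hWV, hNW, -⟩ := H32.pwu G (ℓ ^ k) V hab
  set W := Uw (ℓ ^ k) V with hWdef
  have hexpV : ∀ v ∈ V, v ^ ℓ ^ a = 1 := by
    intro v hv
    have h1 := Monoid.pow_exponent_eq_one (⟨v, hv⟩ : V)
    rw [hexp] at h1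
    exact congrArg (fun v : V => (v : G)) h1
  have hTN : Tg V γ ≤ Subgroup.normalizer (V : Set G) := inf_le_left
  have conjV : ∀ t ∈ Tg V γ, ∀ v ∈ V, t * v * t⁻¹ ∈ V := fun t ht v hv =>
    (Subgroup.mem_normalizer_iff.1 (hTN ht) v).1 hv
  have conjW : ∀ t ∈ Tg V γ, ∀ w ∈ W, t * w * t⁻¹ ∈ W := fun t ht w hw =>
    (Subgroup.mem_normalizer_iff.1 (hNW (hTN ht)) w).1 hw
  have key : ∀ t ∈ Tg V γ, ∀ w ∈ W, t * y * t⁻¹ = y * w →
      t ∈ Subgroup.centralizer (V : Set G) := by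
    intro t ht w hw h
    obtain ⟨v, hv, rfl⟩ := (hW w).1 hw
    exact hy.reg t ht v hv h
  have comm : ∀ u ∈ V, ∀ w ∈ V, ∀ n : ℕ, (u * w) ^ n = u ^ n * w ^ n := fun u hu w hw n =>
    (show Commute u w from hab u hu w hw).mul_pow n
  refine ⟨?_, ?_, ?_, ?_⟩
  · intro j hj
    obtain ⟨c, hc⟩ := inv_exp (a := a) hp hj
    refine ⟨V.pow_mem hy.mem _, ?_, ?_⟩
    · have hcop : (orderOf y).Coprime j := by
        rw [hy.ord]
        exact (Nat.Coprime.pow_right _ ((Nat.Prime.coprime_iff_not_dvd hp).2 hj).symm).symm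
      rw [hcop.orderOf_pow, hy.ord]
    · intro t ht v hv h
      refine hy.reg t ht (v ^ c) (V.pow_mem hv _) ?_
      have h1 : t * y * t⁻¹ = (t * y ^ j * t⁻¹) ^ c := by
        rw [conj_pow, ← pow_mul, hc y (hexpV y hy.mem)]
      rw [h1, h, comm _ (V.pow_mem hy.mem _) _ (V.pow_mem hv _), ← pow_mul, hc y (hexpV y hy.mem),
        ← pow_mul, ← pow_mul, Nat.mul_comm]
  · intro w hw
    obtain ⟨v, hv, rfl⟩ := (hW w).1 hw
    have ho := order_yw hp ha hk hab hexpV hy.mem hv hy.ord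
    refine ⟨⟨V.mul_mem hy.mem (V.pow_mem hv _), ?_, ?_⟩, ho⟩
    · intro h1
      rw [h1, orderOf_one] at ho
      exact absurd ho (Nat.one_lt_pow ha.ne' hp.one_lt).ne
    · rintro t ⟨ht, htc⟩
      have h1 : t * (y * v ^ ℓ ^ k) = (y * v ^ ℓ ^ k) * t :=
        (Subgroup.mem_centralizer_iff.1 htc _ rfl).symm
      refine key t ht (v ^ ℓ ^ k * (t * v ^ ℓ ^ k * t⁻¹)⁻¹)
        (W.mul_mem hw (W.inv_mem (conjW t ht _ hw))) ?_
      calc t * y * t⁻¹ = (t * (y * v ^ ℓ ^ k)) * t⁻¹ * (t * v ^ ℓ ^ k * t⁻¹)⁻¹ := by group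
        _ = ((y * v ^ ℓ ^ k) * t) * t⁻¹ * (t * v ^ ℓ ^ k * t⁻¹)⁻¹ := by rw [h1]
        _ = y * (v ^ ℓ ^ k * (t * v ^ ℓ ^ k * t⁻¹)⁻¹) := by group
  · intro j j' hj hjj w hw w' hw' t ht h
    obtain ⟨c, hc⟩ := inv_exp (a := a) hp hj
    -- the element `t` maps `y` to `y ^ r` modulo `W`
    have h1 : ∃ w₁ ∈ W, t * y ^ j * t⁻¹ = y ^ j' * w₁ := by
      refine ⟨w' * (t * w * t⁻¹)⁻¹, W.mul_mem hw' (W.inv_mem (conjW t ht _ hw)), ?_⟩
      calc t * y ^ j * t⁻¹ = (t * (y ^ j * w) * t⁻¹) * (t * w * t⁻¹)⁻¹ := by group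
        _ = y ^ j' * w' * (t * w * t⁻¹)⁻¹ := by rw [h]
        _ = _ := by rw [mul_assoc]
    obtain ⟨w₁, hw₁, h1⟩ := h1
    set r := j' * c with hr
    have h2 : ∃ w₂ ∈ W, t * y * t⁻¹ = y ^ r * w₂ := by
      refine ⟨w₁ ^ c, W.pow_mem hw₁ _, ?_⟩
      have h3 : t * y * t⁻¹ = (t * y ^ j * t⁻¹) ^ c := by
        rw [conj_pow, ← pow_mul, hc y (hexpV y hy.mem)]
      rw [h3, h1, comm _ (V.pow_mem hy.mem _) _ (hWV hw₁), ← pow_mul]
    obtain ⟨w₂, hw₂, h2⟩ := h2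
    have hrl : r ≡ 1 [MOD ℓ] := by
      have h3 : y ^ (j * c) = y ^ 1 := by rw [pow_one]; exact hc y (hexpV y hy.mem)
      have h4 := pow_eq_pow_iff_modEq.1 h3
      rw [hy.ord] at h4
      have h5 := h4.of_dvd (dvd_pow_self ℓ ha.ne')
      exact (hjj.symm.mul_right c).trans h5
    have h3 : ∀ n : ℕ, ∃ w₃ ∈ W, t ^ n * y * (t ^ n)⁻¹ = y ^ r ^ n * w₃ := by
      intro n
      induction n with
      | zero => exact ⟨1, W.one_mem, by simp⟩
      | succ n ih =>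
        obtain ⟨w₃, hw₃, h4⟩ := ih
        refine ⟨w₂ ^ r ^ n * (t * w₃ * t⁻¹), W.mul_mem (W.pow_mem hw₂ _) (conjW t ht _ hw₃), ?_⟩
        calc t ^ (n + 1) * y * (t ^ (n + 1))⁻¹ = t * (t ^ n * y * (t ^ n)⁻¹) * t⁻¹ := by
              rw [pow_succ']
              group
          _ = t * (y ^ r ^ n * w₃) * t⁻¹ := by rw [h4]
          _ = (t * y ^ r ^ n * t⁻¹) * (t * w₃ * t⁻¹) := by group
          _ = (t * y * t⁻¹) ^ r ^ n * (t * w₃ * t⁻¹) := by rw [conj_pow]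
          _ = y ^ r ^ (n + 1) * (w₂ ^ r ^ n * (t * w₃ * t⁻¹)) := by
              rw [h2, comm _ (V.pow_mem hy.mem _) _ (hWV hw₂), ← pow_mul, pow_succ' r n, mul_assoc]
    set m := (Subgroup.centralizer (V : Set G)).relIndex (Tg V γ) with hm
    have hnorm : ((Subgroup.centralizer (V : Set G)).subgroupOf (Tg V γ)).Normal :=
      Subgroup.normal_subgroupOf_of_le_normalizer (hTN.trans (H60.norm_cent V))
    have h4 : t ^ m ∈ Subgroup.centralizer (V : Set G) := by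
      have h4 := Subgroup.pow_index_mem ((Subgroup.centralizer (V : Set G)).subgroupOf (Tg V γ))
        ⟨t, ht⟩
      exact Subgroup.mem_subgroupOf.1 h4
    obtain ⟨w₃, hw₃, h5⟩ := h3 m
    have h6 : y ^ ((r : ℤ) ^ m - 1) ∈ W := by
      have h7 : t ^ m * y * (t ^ m)⁻¹ = y := by
        rw [← Subgroup.mem_centralizer_iff.1 h4 y hy.mem, mul_assoc, mul_inv_cancel, mul_one]
      rw [h7] at h5
      have h8 : y ^ ((r : ℤ) ^ m - 1) = w₃⁻¹ := by
        have h9 : ((r : ℤ) ^ m) = ((r ^ m : ℕ) : ℤ) := by push_cast; rfl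
        rw [zpow_sub, zpow_one, h9, zpow_natCast, mul_inv_eq_iff_eq_mul]
        have h10 : w₃ * y = y * w₃ := hab _ (hWV hw₃) _ hy.mem
        have h11 : w₃ * y = w₃ * (y ^ r ^ m) * w₃ := by
          rw [mul_assoc, ← h5]
        have h12 : y = y ^ r ^ m * w₃ := h5
        calc y ^ r ^ m = (y ^ r ^ m * w₃) * w₃⁻¹ := by group
          _ = y * w₃⁻¹ := by rw [← h12]
          _ = w₃⁻¹ * y := by
            exact hab _ hy.mem _ (V.inv_mem (hWV hw₃))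
      rw [h8]
      exact W.inv_mem hw₃
    have h7 := pow_sub hp hrl hix W y (hexpV y hy.mem) h6
    refine key t ht (y ^ ((r : ℤ) - 1) * w₂) (W.mul_mem h7 hw₂) ?_
    rw [h2, ← mul_assoc]
    congr 1
    rw [← zpow_one_add]
    have : 1 + ((r : ℤ) - 1) = ((r : ℕ) : ℤ) := by ring
    rw [this, zpow_natCast]
  · -- (iv)
    have main : ∀ j j' : ℕ, j ≤ j' → ∀ w ∈ W, ∀ w' ∈ W, y ^ j * w = y ^ j' * w' →
        j ≡ j' [MOD ℓ ^ k] := by
      intro j j' hle w hw w' hw' h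
      obtain ⟨n, rfl⟩ := Nat.exists_eq_add_of_le hle
      have h1 : y ^ n ∈ W := by
        have h2 : y ^ n = w * w'⁻¹ := by
          rw [pow_add, mul_assoc] at h
          rw [eq_mul_inv_iff_mul_eq]
          exact (mul_left_cancel h).symm
        rw [h2]
        exact W.mul_mem hw (W.inv_mem hw')
      obtain ⟨v, hv, h2⟩ := (hW _).1 h1
      have h3 : y ^ (n * ℓ ^ (a - k)) = 1 := by
        rw [pow_mul, h2, ← pow_mul, ← pow_add, Nat.add_sub_cancel' hka]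
        exact hexpV v hv
      have h4 := orderOf_dvd_of_pow_eq_one h3
      rw [hy.ord] at h4
      have h5 : ℓ ^ a = ℓ ^ k * ℓ ^ (a - k) := by rw [← pow_add, Nat.add_sub_cancel' hka]
      rw [h5] at h4
      have h6 : ℓ ^ k ∣ n := Nat.dvd_of_mul_dvd_mul_right (pow_pos hp.pos _) h4
      exact (Nat.modEq_iff_dvd' hle).2 (by rwa [Nat.add_sub_cancel_left])
    intro j j' w hw w' hw' h
    rcases Nat.le_total j j' with hle | hle
    · exact main j j' hle w hw w' hw' h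
    · exact (main j' j hle w' hw' w hw h.symm).symm

theorem xct : XctStmt := by
  intro ℓ _ F _ hF G _ _ e V γ hL hix a k hk hka hexp y hy
  obtain ⟨-, h2, h3, -⟩ := rkx ℓ F hF G e V γ hL hix a k hk hka hexp y hy
  obtain ⟨hW, hWV, hNW, -⟩ := H32.pwu G (ℓ ^ k) V hL.ab
  set W := Uw (ℓ ^ k) V with hWdef
  set C := Subgroup.centralizer (V : Set G) with hC
  have hp : ℓ.Prime := Fact.out
  have hTN : Tg V γ ≤ Subgroup.normalizer (V : Set G) := inf_le_left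
  let f : (Tg V γ ⧸ C.subgroupOf (Tg V γ)) × W → G := fun p =>
    ((p.1.out : Tg V γ) : G) * (y * (p.2 : G)) * ((p.1.out : Tg V γ) : G)⁻¹
  have hinj : Function.Injective f := by
    rintro ⟨q, w⟩ ⟨q', w'⟩ h
    simp only [f] at h
    set t : G := ((q.out : Tg V γ) : G) with ht
    set t' : G := ((q'.out : Tg V γ) : G) with ht'
    have hs : t'⁻¹ * t ∈ Tg V γ := (Tg V γ).mul_mem ((Tg V γ).inv_mem q'.out.2) q.out.2
    have h4 : (t'⁻¹ * t) * (y ^ 1 * (w : G)) * (t'⁻¹ * t)⁻¹ = y ^ 1 * (w' : G) := by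
      rw [pow_one]
      calc (t'⁻¹ * t) * (y * (w : G)) * (t'⁻¹ * t)⁻¹ = t'⁻¹ * (t * (y * w) * t⁻¹) * t' := by group
        _ = t'⁻¹ * (t' * (y * w') * t'⁻¹) * t' := by rw [h]
        _ = _ := by group
    have h5 := h3 1 1 (fun hd => hp.one_lt.ne' (Nat.dvd_one.1 hd)) (Nat.ModEq.refl 1) w w.2 w' w'.2
      (t'⁻¹ * t) hs h4
    have hq : q = q' := by
      rw [← QuotientGroup.out_eq' q, ← QuotientGroup.out_eq' q']
      symm
      rw [QuotientGroup.eq, Subgroup.mem_subgroupOf]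
      exact h5
    subst hq
    have h6 : y * (w : G) = y * (w' : G) := by
      have h7 : t * (y * (w : G)) * t⁻¹ = t * (y * (w' : G)) * t⁻¹ := h
      exact mul_left_cancel (mul_right_cancel h7)
    exact Prod.ext rfl (Subtype.ext (mul_left_cancel h6))
  have hsub : Set.range f ⊆ {u | Rg V γ u} := by
    rintro _ ⟨⟨q, w⟩, rfl⟩
    have ht : ((q.out : Tg V γ) : G) ∈ Tg V γ := q.out.2
    simp only [f]
    generalize ((q.out : Tg V γ) : G) = t at ht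
    obtain ⟨⟨hu1, hu2, hu3⟩, -⟩ := h2 w w.2
    generalize y * (w : G) = u at hu1 hu2 hu3
    have hn := hTN ht
    refine ⟨(Subgroup.mem_normalizer_iff.1 hn u).1 hu1, fun h => hu2 ?_, ?_⟩
    · rw [mul_inv_eq_one] at h
      exact mul_left_cancel (h.trans (mul_one t).symm)
    · rintro s ⟨hs, hsc⟩
      have h4 : s * (t * u * t⁻¹) = (t * u * t⁻¹) * s :=
        (Subgroup.mem_centralizer_iff.1 hsc _ rfl).symm
      have h5 : t⁻¹ * s * t ∈ C := by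
        apply hu3
        refine ⟨(Tg V γ).mul_mem ((Tg V γ).mul_mem ((Tg V γ).inv_mem ht) hs) ht, ?_⟩
        refine Subgroup.mem_centralizer_iff.2 fun x hx => ?_
        rw [Set.mem_singleton_iff.1 hx]
        calc u * (t⁻¹ * s * t) = t⁻¹ * ((t * u * t⁻¹) * s) * t := by group
          _ = t⁻¹ * (s * (t * u * t⁻¹)) * t := by rw [h4]
          _ = t⁻¹ * s * t * u := by group
      have h6 := (Subgroup.mem_normalizer_iff.1 (H60.norm_cent V hn) _).1 h5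
      have h7 : t * (t⁻¹ * s * t) * t⁻¹ = s := by group
      rwa [h7] at h6
  have hcard : (Set.range f).ncard = ix V γ * Nat.card W := by
    rw [← Nat.card_coe_set_eq, Nat.card_range_of_injective hinj, Nat.card_prod]
    rfl
  rw [← hcard]
  exact Set.ncard_le_ncard hsub (Set.toFinite _)

end Pool.Agent.PP.T8.H45
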